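import Mathlib
import Pool.Agent.H21.SoficDef

namespace Pool.Agent.Results.MP_8bee83_an.NonPositive

open Pool.Agent.H21.Sofic Filter Topology Classical Finset

def Sk (N : Type) [Fintype N] (m : ℕ) : Set (N → ℝ) :=
  {y | (∀ i, y i ∈ Set.Icc (0 : ℝ) 1) ∧ (univ.filter fun i => y i ≠ 0).card ≤ m}

theorem sk_compact (N : Type) [Fintype N] (m : ℕ) : IsCompact (Sk N m) := by
  have : Sk N m = ⋃ S ∈ (univ.filter fun S : Finset N => S.card ≤ m),
      Set.pi Set.univ fun i => if i ∈ S then Set.Icc (0 : ℝ) 1 else {0} := by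
    ext y
    simp only [Sk, Set.mem_setOf_eq, Set.mem_iUnion, mem_filter, mem_univ, true_and,
      Set.mem_pi, Set.mem_univ, forall_true_left, exists_prop]
    constructor
    · rintro ⟨h1, h2⟩
      refine ⟨_, h2, fun i => ?_⟩
      split_ifs with h
      · exact h1 i
      · simpa using h
    · rintro ⟨S, h1, h2⟩
      refine ⟨fun i => ?_, le_trans (card_le_card fun i hi => ?_) h1⟩
      · have := h2 i
        split_ifs at this
        · exact this
        · rw [Set.mem_singleton_iff.mp this]; simp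
      · by_contra h
        have := h2 i
        rw [if_neg h] at this
        exact (mem_filter.mp hi).2 this
  rw [this]
  refine Finset.isCompact_biUnion _ fun S _ => isCompact_univ_pi fun i => ?_
  split_ifs
  · exact isCompact_Icc
  · exact isCompact_singleton

theorem hmin (t : ℝ) (a b : ℕ) : min (t - a) (a + 1 - t) ≤ |t - b| := by
  rcases le_or_gt b a with h | h
  · have : (b : ℝ) ≤ a := by exact_mod_cast h
    exact (min_le_left _ _).trans (le_trans (by linarith) (le_abs_self _))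
  · have : (a : ℝ) + 1 ≤ b := by exact_mod_cast h
    exact (min_le_right _ _).trans (le_trans (by linarith) (neg_le_abs _))

theorem sk_dim (N : Type) [Fintype N] (m : ℕ) : DimLE (Sk N m) m := by
  intro ι _ U hU hc
  haveI : CompactSpace (Sk N m) := isCompact_iff_compactSpace.mp (sk_compact N m)
  obtain ⟨δ, hδ, H⟩ := lebesgue_number_lemma_of_metric isCompact_univ hU hc.ge
  obtain ⟨M, hM⟩ := exists_nat_one_div_lt hδ
  let t : Sk N m → N → ℝ := fun y i => (M + 1) * y.1 i
  have ht : ∀ i, Continuous fun y => t y i := fun i =>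
    continuous_const.mul ((continuous_apply i).comp continuous_subtype_val)
  let V : Finset N × (N → Fin (M + 2)) → Set (Sk N m) := fun p =>
    {y | (∀ i ∈ p.1, (p.2 i : ℝ) < t y i ∧ t y i < p.2 i + 1) ∧ ∀ i ∉ p.1,
      |t y i - p.2 i| < 1 / 2 ∧ ∀ k ∈ p.1, |t y i - p.2 i| < min (t y k - p.2 k) (p.2 k + 1 - t y k)}
  refine ⟨_, inferInstance, V, fun p => ?_, ?_, fun p => ?_, fun y => ?_⟩
  · simp only [V, Set.setOf_and, Set.setOf_forall]
    refine IsOpen.inter ?_ ?_ <;> refine isOpen_iInter_of_finite fun i =>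
      isOpen_iInter_of_finite fun _ => IsOpen.inter (isOpen_lt (by fun_prop) (by fun_prop)) ?_
    · exact isOpen_lt (by fun_prop) (by fun_prop)
    · exact isOpen_iInter_of_finite fun i => isOpen_iInter_of_finite fun _ =>
        isOpen_lt (by fun_prop) (by fun_prop)
  · refine Set.eq_univ_of_forall fun y => Set.mem_iUnion.mpr ?_
    have h0 : ∀ i, 0 ≤ t y i := fun i => mul_nonneg (by positivity) (y.2.1 i).1
    have h1 : ∀ i, ⌊t y i⌋₊ < M + 2 := fun i => by
      rw [Nat.floor_lt (h0 i)]; push_cast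
      have := (y.2.1 i).2
      have : t y i ≤ (M + 1) * 1 := mul_le_mul_of_nonneg_left this (by positivity)
      linarith
    have h2 : ∀ i, (⌊t y i⌋₊ : ℝ) ≠ t y i → (⌊t y i⌋₊ : ℝ) < t y i ∧ t y i < ⌊t y i⌋₊ + 1 :=
      fun i h => ⟨lt_of_le_of_ne (Nat.floor_le (h0 i)) h, Nat.lt_floor_add_one _⟩
    refine ⟨(univ.filter fun i => (⌊t y i⌋₊ : ℝ) ≠ t y i, fun i => ⟨_, h1 i⟩),
      fun i hi => h2 i (mem_filter.mp hi).2, fun i hi => ?_⟩
    have : (⌊t y i⌋₊ : ℝ) = t y i := by simpa using hi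
    simp only [this, sub_self, abs_zero]
    refine ⟨by norm_num, fun k hk => ?_⟩
    have := h2 k (mem_filter.mp hk).2
    exact lt_min (by linarith) (by linarith)
  · rcases (V p).eq_empty_or_nonempty with h | ⟨y, hy⟩
    · obtain ⟨i, -⟩ := H ⟨0, by simp [Sk]⟩ trivial
      exact ⟨i, by simp [h]⟩
    · obtain ⟨i, hi⟩ := H y trivial
      refine ⟨i, fun z hz => hi ?_⟩
      rw [Metric.mem_ball, Subtype.dist_eq, dist_pi_lt_iff hδ]
      intro k
      have : |t z k - t y k| < 1 := by
        by_cases hk : k ∈ p.1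
        · have := hy.1 k hk; have := hz.1 k hk
          rw [abs_lt]; constructor <;> linarith [this.1]
        · have := abs_lt.mp (hy.2 k hk).1; have := abs_lt.mp (hz.2 k hk).1
          rw [abs_lt]; constructor <;> linarith [this.1]
      simp only [t, ← mul_sub, abs_mul] at this
      rw [abs_of_pos (by positivity), ← lt_div_iff₀' (by positivity)] at this
      exact this.trans hM
  · rw [← Finset.card_range (m + 1), ← Set.ncard_coe_finset]
    refine Set.ncard_le_ncard_of_injOn (fun p => p.1.card) (fun p hp => ?_) ?_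
    · simp only [coe_range, Set.mem_Iio, Nat.lt_succ_iff]
      refine le_trans (card_le_card fun i hi => ?_) y.2.2
      simp only [mem_filter, mem_univ, true_and]
      intro h
      have := (hp.1 i hi).1
      simp only [t, h, mul_zero] at this
      exact absurd this (not_lt.mpr (Nat.cast_nonneg _))
    · rintro ⟨S, a⟩ hp ⟨S', a'⟩ hq (hcard : S.card = S'.card)
      have hS : S = S' := by
        by_contra hne
        obtain ⟨k, hk, hk'⟩ := not_subset.mp fun h => hne (eq_of_subset_of_card_le h hcard.ge)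
        obtain ⟨l, hl, hl'⟩ := not_subset.mp fun h => hne (eq_of_subset_of_card_le h hcard.le).symm
        have h1 := (hp.2 l hl').2 k hk
        have h2 := (hq.2 k hk').2 l hl
        have h3 := hmin (t y k) (a k) (a' k)
        have h4 := hmin (t y l) (a' l) (a l)
        simp only at h1 h2
        linarith
      subst hS
      refine Prod.ext rfl (funext fun i => Fin.ext ?_)
      have : |((a i : ℕ) : ℝ) - (a' i : ℕ)| < 1 := by
        by_cases hk : i ∈ S
        · have h1 := hp.1 i hk; have h2 := hq.1 i hk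
          rw [abs_lt]; constructor <;> linarith [h1.1, h1.2, h2.1, h2.2]
        · have h1 := abs_lt.mp (hp.2 i hk).1; have h2 := abs_lt.mp (hq.2 i hk).1
          rw [abs_lt]; constructor <;> linarith [h1.1, h1.2, h2.1, h2.2]
      rw [abs_lt] at this
      have h1 : (a i : ℕ) < a' i + 1 := by exact_mod_cast (by linarith : ((a i : ℕ) : ℝ) < a' i + 1)
      have h2 : (a' i : ℕ) < a i + 1 := by exact_mod_cast (by linarith : ((a' i : ℕ) : ℝ) < a i + 1)
      simp only; omega

variable {X : Type} [MetricSpace X] [CompactSpace X] {G : Type} [Group G] [MulAction G X]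
  [ContinuousConstSMul G X]

theorem pou {n : ℕ} (h : DimLE X n) {η : ℝ} (hη : 0 < η) :
    ∃ (J : Type) (_ : Fintype J) (p : J → C(X, ℝ)), (∀ j x, p j x ∈ Set.Icc (0 : ℝ) 1) ∧
      (∀ x, ∃ j, p j x ≠ 0) ∧ (∀ x, (univ.filter fun j => p j x ≠ 0).card ≤ n + 1) ∧
      ∀ j x x', p j x ≠ 0 → p j x' ≠ 0 → dist x x' < η := by
  obtain ⟨T, -, hT, hc⟩ := finite_cover_balls_of_compact (isCompact_univ (X := X)) (half_pos hη)
  haveI := hT.to_subtype
  obtain ⟨J, _, V, h1, h2, h3, h4⟩ := h T (fun x => Metric.ball x (η / 2))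
    (fun _ => Metric.isOpen_ball) (Set.eq_univ_of_univ_subset (by simpa using hc))
  obtain ⟨f, hf⟩ := PartitionOfUnity.exists_isSubordinate isClosed_univ V h1 h2.ge
  have hs : ∀ j x, f j x ≠ 0 → x ∈ V j := fun j x hx => hf j (subset_tsupport _ hx)
  letI := Fintype.ofFinite J
  refine ⟨J, inferInstance, f, fun j x => ⟨f.nonneg j x, f.le_one j x⟩,
    fun x => (f.exists_pos (Set.mem_univ x)).imp fun _ h => h.ne', fun x => ?_, ?_⟩
  · rw [← Set.ncard_coe_finset]
    exact (Set.ncard_le_ncard (fun j hj => hs j x (by simpa using hj))).trans (h4 x)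
  · intro j x x' hx hx'
    obtain ⟨i, hi⟩ := h3 j
    have a := hi (hs j x hx); have b := hi (hs j x' hx')
    rw [Metric.mem_ball] at a b
    linarith [dist_triangle_right x x' i]

theorem equi (A : Finset G) {ε : ℝ} (hε : 0 < ε) :
    ∃ η > 0, ∀ g ∈ A, ∀ x y : X, dist x y < η → dist (g • x) (g • y) < ε := by
  induction A using Finset.induction_on with
  | empty => exact ⟨1, one_pos, by simp⟩
  | insert g A _ ih =>
    obtain ⟨η, hη, h⟩ := ih
    obtain ⟨η', hη', h'⟩ := Metric.uniformContinuous_iff.mp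
      (CompactSpace.uniformContinuous_of_continuous (continuous_const_smul (T := X) g)) ε hε
    refine ⟨min η η', lt_min hη hη', fun g' hg x y hxy => ?_⟩
    rcases mem_insert.mp hg with rfl | hg
    · exact h' (hxy.trans_le (min_le_right _ _))
    · exact h _ hg _ _ (hxy.trans_le (min_le_left _ _))

omit [Group G] in
theorem net {d : ℕ} (F : Finset G) (hF : F.Nonempty) (σ : G → Equiv.Perm (Fin d)) :
    ∃ C : Finset (Fin d), C.card * F.card ≤ d ∧ ∀ l, Set.InjOn (σ · l) F →
      ∃ k ∈ C, ∃ s ∈ F, ∃ t ∈ F, σ s l = σ t k := by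
  obtain ⟨C, hC, hmax⟩ := exists_max_image (univ.filter fun C : Finset (Fin d) =>
    (∀ l ∈ C, Set.InjOn (σ · l) F) ∧
      (C : Set (Fin d)).PairwiseDisjoint fun l => F.image (σ · l)) card ⟨∅, by simp⟩
  obtain ⟨h1, h2⟩ := (mem_filter.mp hC).2
  refine ⟨C, ?_, fun l hl => ?_⟩
  · have := card_le_univ (C.biUnion fun l => F.image (σ · l))
    rwa [card_biUnion h2, sum_congr rfl fun l hl => card_image_of_injOn (h1 l hl), sum_const,
      smul_eq_mul, Fintype.card_fin] at this
  · by_contra hc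
    push Not at hc
    obtain ⟨s, hs⟩ := hF
    have hl' : l ∉ C := fun h => hc l h s hs s hs rfl
    have := hmax (insert l C) (mem_filter.mpr ⟨mem_univ _, ?_, ?_⟩)
    · rw [card_insert_of_notMem hl'] at this; omega
    · intro k hk; rcases mem_insert.mp hk with rfl | hk
      exacts [hl, h1 k hk]
    · rw [coe_insert]
      refine h2.insert fun k hk _ => disjoint_left.mpr fun j hj hj' => ?_
      obtain ⟨a, ha, rfl⟩ := mem_image.mp hj
      obtain ⟨b, hb, e⟩ := mem_image.mp hj'
      exact hc k hk a ha b hb e.symm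

theorem bound {n : ℕ} (h : DimLE X n) (F : Finset G) (hF : F.Nonempty) {ε : ℝ} (hε : 0 < ε) :
    ∃ κ > 0, ∀ (d : ℕ) (σ : G → Equiv.Perm (Fin d)) (δ : ℝ), 0 < d → 0 < δ →
      Widim (MapSet X F δ σ) ε ≤ (((n + 1) * (d / F.card +
        (univ.filter fun l => ¬ Set.InjOn (σ · l) F).card + F.card * (F.card * (d * δ ^ 2 / κ ^ 2))) : ℝ) : EReal) := by
  obtain ⟨η, hη, Hη⟩ := equi (X := X) ((F ×ˢ F).image fun p => p.1⁻¹ * p.2) (show 0 < ε / 3 by positivity)
  obtain ⟨κ, hκ, Hκ⟩ := equi (X := X) (F.image fun s => s⁻¹) (show 0 < ε / 3 by positivity)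
  obtain ⟨J, _, p, p1, p2, p3, p4⟩ := pou h (lt_min hη hε)
  refine ⟨κ / 2, half_pos hκ, fun d σ δ hd hδ => ?_⟩
  obtain ⟨C, hC, H⟩ := net F hF σ
  choose! k hk s hs t ht e using H
  set K := C ∪ univ.filter fun l => ¬ Set.InjOn (σ · l) F with hK
  set b := ⌊d * δ ^ 2 / (κ / 2) ^ 2⌋₊
  let τ : Fin d → (Fin d → X) → ℝ := fun l φ => if l ∈ K then 1 else
    min 1 (max 0 (dist (φ l) (((s l)⁻¹ * t l) • φ (k l)) - ε / 3))
  have τc : ∀ l, Continuous (τ l) := fun l => by
    simp only [τ]; split_ifs <;> fun_prop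
  have τ1 : ∀ l φ, τ l φ ∈ Set.Icc (0 : ℝ) 1 := fun l φ => by
    simp only [τ]; split_ifs
    · simp
    · exact ⟨le_min zero_le_one (le_max_left _ _), min_le_left _ _⟩
  have τ0 : ∀ l φ, τ l φ = 0 ↔ l ∉ K ∧ dist (φ l) (((s l)⁻¹ * t l) • φ (k l)) ≤ ε / 3 := by
    intro l φ
    simp only [τ]; split_ifs with hl
    · simp [hl]
    · simp only [hl, not_false_iff, true_and]
      constructor
      · intro h; by_contra hc
        exact absurd h (lt_min one_pos (lt_max_of_lt_right (by linarith [not_le.mp hc]))).ne'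
      · intro h; rw [max_eq_left (by linarith)]; simp
  have good : ∀ l, l ∉ K → Set.InjOn (σ · l) F := fun l hl => by
    by_contra hc; exact hl (mem_union_right _ (mem_filter.mpr ⟨mem_univ _, hc⟩))
  have cnt : ∀ φ ∈ MapSet X F δ σ, (univ.filter fun l => τ l φ ≠ 0).card ≤
      K.card + F.card * (F.card * b) := by
    intro φ hφ
    set B := F.biUnion fun s => (univ.filter fun l => κ / 2 ≤ dist (φ (σ s l)) (s • φ l)).image (σ s)
    have hB : B.card ≤ F.card * b := by
      refine card_biUnion_le_card_mul _ _ _ fun s hs => card_image_le.trans (Nat.le_floor ?_)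
      have h1 := hφ s hs
      rw [Real.sqrt_le_left hδ.le, div_le_iff₀ (by exact_mod_cast hd)] at h1
      rw [le_div_iff₀ (by positivity), ← nsmul_eq_mul, ← sum_const, mul_comm]
      refine le_trans ?_ h1
      refine (sum_le_sum fun l hl => ?_).trans (sum_le_sum_of_subset_of_nonneg (subset_univ _)
        fun _ _ _ => sq_nonneg _)
      exact pow_le_pow_left₀ (by positivity) (mem_filter.mp hl).2 2
    refine le_trans (card_le_card (t := K ∪ F.biUnion fun s => B.image (σ s).symm) fun l hl => ?_)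
      ((card_union_le _ _).trans (Nat.add_le_add_left (card_biUnion_le_card_mul _ _ _
        fun s _ => card_image_le.trans hB) _))
    by_contra hc
    rw [mem_union, not_or] at hc
    have hg := good l hc.1
    have hj : σ (s l) l ∉ B := fun h =>
      hc.2 (mem_biUnion.mpr ⟨_, hs l hg, mem_image.mpr ⟨_, h, by simp⟩⟩)
    have a1 : dist (φ (σ (s l) l)) (s l • φ l) < κ / 2 := not_le.mp fun h =>
      hj (mem_biUnion.mpr ⟨_, hs l hg, mem_image.mpr ⟨l, mem_filter.mpr ⟨mem_univ _, h⟩, rfl⟩⟩)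
    have a2 : dist (φ (σ (t l) (k l))) (t l • φ (k l)) < κ / 2 := not_le.mp fun h =>
      hj (mem_biUnion.mpr ⟨_, ht l hg, mem_image.mpr
        ⟨k l, mem_filter.mpr ⟨mem_univ _, h⟩, (e l hg).symm⟩⟩)
    rw [← e l hg] at a2
    have := Hκ _ (mem_image_of_mem _ (hs l hg)) (s l • φ l) (t l • φ (k l))
      (by linarith [dist_triangle_left (s l • φ l) (t l • φ (k l)) (φ (σ (s l) l))])
    rw [inv_smul_smul, smul_smul] at this
    exact (mem_filter.mp hl).2 ((τ0 l φ).mpr ⟨hc.1, this.le⟩)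
  set m := (K.card + F.card * (F.card * b)) * (n + 1) with hm
  let Ψ : C(MapSet X F δ σ, Sk (Fin d × J) m) :=
    ⟨fun φ => ⟨fun q => τ q.1 φ.1 * p q.2 (φ.1 q.1), fun q => ⟨mul_nonneg (τ1 _ _).1 (p1 _ _).1,
      mul_le_one₀ (τ1 _ _).2 (p1 _ _).1 (p1 _ _).2⟩, by
        refine le_trans (card_le_card (t := (univ.filter fun l => τ l φ.1 ≠ 0).biUnion fun l =>
          (univ.filter fun j => p j (φ.1 l) ≠ 0).image fun j => (l, j)) fun q hq => ?_)
          ((card_biUnion_le_card_mul _ _ _ fun l _ => card_image_le.trans (p3 _)).trans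
            (Nat.mul_le_mul_right _ (cnt _ φ.2)))
        have := mul_ne_zero_iff.mp (mem_filter.mp hq).2
        exact mem_biUnion.mpr ⟨q.1, mem_filter.mpr ⟨mem_univ _, this.1⟩,
          mem_image.mpr ⟨q.2, mem_filter.mpr ⟨mem_univ _, this.2⟩, rfl⟩⟩⟩,
      Continuous.subtype_mk (continuous_pi fun q : Fin d × J =>
        ((τc q.1).comp continuous_subtype_val).mul ((p q.2).continuous.comp
          ((continuous_apply q.1).comp continuous_subtype_val))) _⟩
  have emb : ∀ φ φ', Ψ φ = Ψ φ' → dist φ φ' < ε := by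
    intro φ φ' hΨ
    have E : ∀ l j, τ l φ.1 * p j (φ.1 l) = τ l φ'.1 * p j (φ'.1 l) := fun l j =>
      congrFun (congrArg Subtype.val hΨ) (l, j)
    have A : ∀ l, (τ l φ.1 ≠ 0 ∨ τ l φ'.1 ≠ 0) → dist (φ.1 l) (φ'.1 l) < min η ε := by
      rintro l (h | h)
      · obtain ⟨j, hj⟩ := p2 (φ.1 l)
        exact p4 j _ _ hj (mul_ne_zero_iff.mp (E l j ▸ mul_ne_zero h hj)).2
      · obtain ⟨j, hj⟩ := p2 (φ'.1 l)
        exact p4 j _ _ (mul_ne_zero_iff.mp ((E l j).symm ▸ mul_ne_zero h hj)).2 hj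
    rw [Subtype.dist_eq, dist_pi_lt_iff hε]
    intro l
    by_cases hl : τ l φ.1 ≠ 0 ∨ τ l φ'.1 ≠ 0
    · exact (A l hl).trans_le (min_le_right _ _)
    · push Not at hl
      obtain ⟨hK', a1⟩ := (τ0 _ _).mp hl.1
      have a2 := ((τ0 _ _).mp hl.2).2
      have hg := good l hK'
      have a3 := Hη _ (mem_image.mpr ⟨(s l, t l), mem_product.mpr ⟨hs l hg, ht l hg⟩, rfl⟩) _ _
        ((A (k l) (Or.inl fun h => ((τ0 _ _).mp h).1 (mem_union_left _ (hk l hg)))).trans_le
          (min_le_left _ _))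
      linarith [dist_triangle4_right (φ.1 l) (φ'.1 l) (((s l)⁻¹ * t l) • φ.1 (k l))
        (((s l)⁻¹ * t l) • φ'.1 (k l))]
  haveI : CompactSpace (Sk (Fin d × J) m) := isCompact_iff_compactSpace.mp (sk_compact _ m)
  have W : Widim (MapSet X F δ σ) ε ≤ (m : EReal) := by
    refine iInf_le_of_le (Sk (Fin d × J) m) (iInf_le_of_le inferInstance (iInf_le_of_le inferInstance
      (iInf_le_of_le inferInstance (iInf_le_of_le Ψ (iInf_le_of_le emb ?_)))))
    unfold covDim
    split_ifs
    · exact bot_le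
    · exact iInf₂_le m (sk_dim _ m)
  refine W.trans ?_
  rw [← EReal.coe_natCast, EReal.coe_le_coe_iff, hm]
  have h1 : (K.card : ℝ) ≤ C.card + (univ.filter fun l => ¬ Set.InjOn (σ · l) F).card := by
    exact_mod_cast card_union_le _ _
  have h2 : (C.card : ℝ) ≤ d / F.card := by
    rw [le_div_iff₀ (by exact_mod_cast hF.card_pos)]; exact_mod_cast hC
  have h3 : (b : ℝ) ≤ d * δ ^ 2 / (κ / 2) ^ 2 := Nat.floor_le (by positivity)
  push_cast
  rw [mul_comm]
  gcongr
  linarith

theorem result (G : Type) [Group G] [Countable G] [Infinite G] (d : ℕ → ℕ)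
    (σ : ∀ i, G → Equiv.Perm (Fin (d i))) (hσ : IsSoficApprox d σ)
    (X : Type) [MetricSpace X] [CompactSpace X] [MulAction G X] [ContinuousConstSMul G X]
    (hX : covDim X < ⊤) : mdim X d σ ≤ 0 := by
  obtain ⟨n, hn⟩ : ∃ n, DimLE X n := by
    unfold covDim at hX
    split_ifs at hX with h
    · exact ⟨0, fun ι _ U _ _ => ⟨Empty, inferInstance, fun _ => ∅, by simp,
        Set.eq_univ_of_forall fun x => h.elim x, fun j => j.elim, fun x => h.elim x⟩⟩
    · by_contra hc; push Not at hc; simp [hc] at hX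
  refine iSup₂_le fun ε hε => le_of_forall_gt_imp_ge_of_dense fun c hc => ?_
  obtain ⟨θ, h0, hθ⟩ := EReal.lt_iff_exists_real_btwn.mp hc
  have h0 : 0 < θ := by exact_mod_cast h0
  refine le_trans ?_ hθ.le
  set θ' := θ / (3 * (n + 1)) with hθ'
  have h1 : 0 < θ' := by positivity
  obtain ⟨N, hN⟩ := exists_nat_one_div_lt h1
  obtain ⟨F, hF⟩ := Infinite.exists_subset_card_eq G (N + 1)
  obtain ⟨κ, hκ, H⟩ := bound hn F (card_pos.mp (by omega)) hε
  have hFc : (F.card : ℝ) = N + 1 := by rw [hF]; push_cast; rfl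
  refine iInf_le_of_le F (iInf₂_le_of_le (√θ' * κ / (N + 1)) (by positivity) ?_)
  have hd : ∀ᶠ i in atTop, 0 < d i := hσ.2.2.eventually_gt_atTop 0
  have hb : Tendsto (fun i => ∑ q ∈ F.offDiag, (1 - ((univ.filter fun k =>
      σ i q.1 k ≠ σ i q.2 k).card : ℝ) / d i)) atTop (𝓝 0) := by
    have := tendsto_finset_sum F.offDiag fun q hq =>
      (hσ.2.1 q.1 q.2 (mem_offDiag.mp hq).2.2).const_sub 1
    simpa using this
  refine limsup_le_of_le (h := ?_)
  filter_upwards [hd, hb.eventually (gt_mem_nhds h1)] with i hi h2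
  have hi' : (0 : ℝ) < d i := by exact_mod_cast hi
  rw [EReal.div_le_iff_le_mul (by exact_mod_cast hi) (EReal.natCast_ne_top _)]
  refine (H _ (σ i) _ hi (by positivity)).trans ?_
  rw [← EReal.coe_natCast, ← EReal.coe_mul, EReal.coe_le_coe_iff, hFc]
  have a1 : ((univ.filter fun l => ¬ Set.InjOn (σ i · l) F).card : ℝ) ≤ θ' * d i := by
    refine le_trans ?_ (mul_le_mul_of_nonneg_right h2.le hi'.le)
    have : (univ.filter fun l => ¬ Set.InjOn (σ i · l) F).card ≤
        ∑ q ∈ F.offDiag, (univ.filter fun k => ¬ σ i q.1 k ≠ σ i q.2 k).card := by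
      refine le_trans (card_le_card fun l hl => ?_) card_biUnion_le
      have := (mem_filter.mp hl).2
      simp only [Set.InjOn, not_forall] at this
      obtain ⟨a, ha, b, hb, h, h'⟩ := this
      exact mem_biUnion.mpr ⟨(a, b), mem_offDiag.mpr ⟨ha, hb, h'⟩, by simpa using h⟩
    refine (Nat.cast_le.mpr this).trans (le_of_eq ?_)
    rw [Nat.cast_sum, sum_mul]
    refine sum_congr rfl fun q _ => ?_
    have := card_filter_add_card_filter_not (s := univ) fun k => σ i q.1 k ≠ σ i q.2 k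
    rw [card_univ, Fintype.card_fin] at this
    have : (((univ.filter fun k => σ i q.1 k ≠ σ i q.2 k).card : ℝ) +
      (univ.filter fun k => ¬ σ i q.1 k ≠ σ i q.2 k).card) = d i := by exact_mod_cast this
    field_simp; linarith
  have a2 : (d i : ℝ) / (N + 1) ≤ θ' * d i := by
    rw [div_eq_mul_one_div, mul_comm]; gcongr
  have a3 : (N + 1 : ℝ) * ((N + 1) * (d i * (√θ' * κ / (N + 1)) ^ 2 / κ ^ 2)) = θ' * d i := by
    rw [div_pow, mul_pow, Real.sq_sqrt h1.le]; field_simp
  rw [a3]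
  calc _ ≤ (n + 1 : ℝ) * (3 * (θ' * d i)) := by gcongr; linarith
    _ = _ := by rw [hθ']; field_simp

end Pool.Agent.Results.MP_8bee83_an.NonPositive
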